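import Mathlib
import Pool.Agent.R828.CoCons

/-!
# Co-consonance of the Smyth powerspace does not imply co-consonance of the space

The definitions `CoConsonant`, `PS`, `ScottOpen`, `UpperOpen` are in `Pool/Agent/R828/CoCons.lean`.
-/

set_option autoImplicit false

namespace Pool.Agent.Results.MP_dd3b7d_gt.Counterexample

open Pool.Agent.R828.CC

universe u

/-- There is a `T₀` space `X` such that the Smyth powerspace `P_S(X)` is co-consonant while `X` is
not co-consonant. Indeed every infinite compact `T₁` space all of whose points have a
neighbourhood base of compact sets (for instance the unit interval) is such a space. -/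
theorem result :
    (∃ (X : Type) (_ : TopologicalSpace X), T0Space X ∧ CoConsonant (PS X) ∧ ¬ CoConsonant X) ∧
    (∀ (X : Type u) [TopologicalSpace X] [T1Space X] [CompactSpace X] [LocallyCompactSpace X]
      [Infinite X], CoConsonant (PS X) ∧ ¬ CoConsonant X) := by
  have hinf : Infinite unitInterval := Set.Infinite.to_subtype (Set.Icc_infinite zero_lt_one)
  refine ⟨⟨unitInterval, inferInstance, inferInstance, coConsonant_PS_of_locallyCompact,
    not_coConsonant_of_compact⟩, ?_⟩
  intro X _ _ _ _ _
  exact ⟨coConsonant_PS_of_locallyCompact, not_coConsonant_of_compact⟩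

end Pool.Agent.Results.MP_dd3b7d_gt.Counterexample
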